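import Mathlib
import Pool.Agent.MP_3c6bfc_nt.QuadD

set_option autoImplicit false

namespace Pool.Agent.Results.MP_3c6bfc_nt.ExponentFour

open Polynomial IntermediateField Module Pool.Agent.MP_3c6bfc_nt.Quad

/-- For two different real quadratic fields `K₁`, `K₂`, a bound
`|α - β| ≥ c max(H(α), H(β))^(-τ)` for all distinct `α ∈ K₁`, `β ∈ K₂` holds iff `τ ≥ 4`. -/
theorem result (K₁ K₂ : IntermediateField ℚ ℝ) (h₁ : Module.finrank ℚ K₁ = 2)
    (h₂ : Module.finrank ℚ K₂ = 2) (hne : K₁ ≠ K₂) (τ : ℝ) :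
    (∃ c : ℝ, 0 < c ∧ ∀ α ∈ K₁, ∀ β ∈ K₂, α ≠ β →
      ∀ P Q : Polynomial ℤ, P.IsPrimitive → Q.IsPrimitive →
        Polynomial.aeval α P = 0 → Polynomial.aeval β Q = 0 →
        P.natDegree = (minpoly ℚ α).natDegree → Q.natDegree = (minpoly ℚ β).natDegree →
        c * (max ((P.support.sup fun i => (P.coeff i).natAbs : ℕ) : ℝ)
                 ((Q.support.sup fun i => (Q.coeff i).natAbs : ℕ) : ℝ)) ^ (-τ) ≤ |α - β|) ↔
    4 ≤ τ := by
  have four : ∀ (P Q : ℤ[X]) (e : ℝ), 0 ≤ e → 1 ≤ 128 * (hgt P : ℝ) ^ 2 * (hgt Q : ℝ) ^ 2 * e →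
      1 ≤ 128 * (max (hgt P : ℝ) (hgt Q)) ^ 4 * e := fun P Q e e0 h => by
    have a := le_max_left (hgt P : ℝ) (hgt Q)
    have b := le_max_right (hgt P : ℝ) (hgt Q)
    calc _ ≤ _ := h
      _ ≤ 128 * (max (hgt P : ℝ) (hgt Q)) ^ 2 * (max (hgt P : ℝ) (hgt Q)) ^ 2 * e := by gcongr
      _ = _ := by ring
  constructor
  · rintro ⟨c, c0, hc⟩
    by_contra hτ
    have t0 : 0 < 4 - τ := by linarith
    obtain ⟨T, hT⟩ := exists_nat_ge (max 20 (78 / (4 - τ)))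
    have T1 : 20 ≤ T := by exact_mod_cast (le_max_left _ _).trans hT
    have T2 : 78 ≤ T * (4 - τ) := (div_le_iff₀ t0).1 ((le_max_right _ _).trans hT)
    obtain ⟨Y, α, β, P, Q, hY, g1, g2, p1, q1, p2, q2, p3, q3, p4, q4, h⟩ :=
      close h₁ h₂ hne T (by omega) (max 128 (2 / c))
    have Y1 : 128 ≤ Y := (le_max_left _ _).trans hY
    have Y2 : 2 ≤ Y * c := (div_le_iff₀ c0).1 ((le_max_right _ _).trans hY)
    have ne : α ≠ β := fun e => hne (by rw [← g1, ← g2, e])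
    have k1 := (irr_of_gen h₁ g1).1
    have k2 := (irr_of_gen h₂ g2).1
    have h1 : c * (max (hgt P : ℝ) (hgt Q)) ^ (-τ) ≤ |α - β| :=
      hc α k1 β k2 ne P Q p1 q1 p2 q2 p3 q3
    have e0 := abs_nonneg (α - β)
    have h2 := four P Q _ e0 (liouville_all h₁ h₂ hne k1 k2 ne P Q p2 q2 p3 q3)
    have h3 := max_le p4 q4
    have M0 : 0 ≤ max (hgt P : ℝ) (hgt Q) := le_max_of_le_left (by positivity)
    generalize max (hgt P : ℝ) (hgt Q) = M at *
    generalize |α - β| = e at *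
    have Y0 : 0 < Y := by linarith
    have h4 : Y ^ T ≤ M := by
      refine le_of_pow_le_pow_left₀ (n := 4) (by norm_num) M0 ?_
      have a1 : Y * Y ^ 65 ≤ (Y ^ T) ^ 4 := by
        rw [← pow_succ', ← pow_mul]; exact pow_le_pow_right₀ (by linarith) (by omega)
      refine le_of_mul_le_mul_right ?_ (by positivity : 0 < (Y ^ T) ^ 4)
      calc _ = 1 * (Y ^ T) ^ 8 := by ring
        _ ≤ 128 * M ^ 4 * e * (Y ^ T) ^ 8 := by gcongr
        _ = M ^ 4 * (128 * (e * (Y ^ T) ^ 8)) := by ring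
        _ ≤ M ^ 4 * (Y * Y ^ 65) := by gcongr
        _ ≤ _ := by gcongr
    have M1 : 0 < M := lt_of_lt_of_le (by positivity) h4
    have h5 : e * M ^ 4 ≤ Y ^ 77 := by
      calc _ ≤ e * (Y ^ 3 * (Y ^ T) ^ 2) ^ 4 := by gcongr
        _ = e * (Y ^ T) ^ 8 * Y ^ 12 := by ring
        _ ≤ Y ^ 65 * Y ^ 12 := by gcongr
        _ = _ := by ring
    have h6 : Y ^ 78 ≤ M ^ (4 - τ) := by
      calc Y ^ 78 = Y ^ ((78 : ℕ) : ℝ) := (Real.rpow_natCast _ _).symm
        _ ≤ Y ^ ((T : ℝ) * (4 - τ)) :=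
          Real.rpow_le_rpow_of_exponent_le (by linarith) (by exact_mod_cast T2)
        _ = (Y ^ T) ^ (4 - τ) := Real.rpow_natCast_mul Y0.le _ _
        _ ≤ _ := Real.rpow_le_rpow (by positivity) h4 t0.le
    have h7 : M ^ (4 - τ) = M ^ (-τ) * M ^ 4 := by
      rw [← Real.rpow_natCast M 4, ← Real.rpow_add M1]; congr 1; push_cast; ring
    have h8 : Y * c * Y ^ 77 ≤ 1 * Y ^ 77 := by
      calc _ = c * Y ^ 78 := by ring
        _ ≤ c * (M ^ (-τ) * M ^ 4) := by rw [← h7]; gcongr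
        _ = c * M ^ (-τ) * M ^ 4 := by ring
        _ ≤ e * M ^ 4 := by gcongr
        _ ≤ _ := by linarith
    have := le_of_mul_le_mul_right h8 (by positivity)
    linarith
  · refine fun hτ => ⟨1 / 128, by norm_num, fun α k1 β k2 ne P Q _ _ p2 q2 p3 q3 => ?_⟩
    have h2 := four P Q _ (abs_nonneg _) (liouville_all h₁ h₂ hne k1 k2 ne P Q p2 q2 p3 q3)
    change 1 / 128 * (max (hgt P : ℝ) (hgt Q)) ^ (-τ) ≤ _
    have M1 : 1 ≤ max (hgt P : ℝ) (hgt Q) := by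
      rw [← Nat.cast_max] at h2 ⊢
      rcases Nat.eq_zero_or_pos (max (hgt P) (hgt Q)) with h | h
      · rw [h] at h2; norm_num at h2
      · exact_mod_cast h
    generalize max (hgt P : ℝ) (hgt Q) = M at *
    have h3 : M ^ (-τ) * M ^ 4 ≤ 1 := by
      rw [← Real.rpow_natCast M 4, ← Real.rpow_add (by linarith)]
      exact Real.rpow_le_one_of_one_le_of_nonpos M1 (by push_cast; linarith)
    refine le_of_mul_le_mul_right ?_ (by positivity : 0 < 128 * M ^ 4)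
    calc _ = M ^ (-τ) * M ^ 4 := by ring
      _ ≤ _ := by linarith

end Pool.Agent.Results.MP_3c6bfc_nt.ExponentFour
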