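import Mathlib
import Pool.Agent.MP_3c6bfc_nt.Approx

set_option autoImplicit false

namespace Pool.Agent.Results.MP_3c6bfc_nt.ExponentThree

open Polynomial NumberField IntermediateField Module Pool.Agent.MP_3c6bfc_nt

/-- For any two different real number fields `K₁`, `K₂` there are generators `α` of `K₁` and `β`
of `K₂` of arbitrarily large height with `|α - β| ≤ C max(H(α), H(β))^(-3)`. -/
theorem result (K₁ K₂ : IntermediateField ℚ ℝ) [FiniteDimensional ℚ K₁] [FiniteDimensional ℚ K₂]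
    (hne : K₁ ≠ K₂) :
    ∃ C : ℝ, ∀ B : ℝ, ∃ α β : ℝ, α ≠ β ∧ IntermediateField.adjoin ℚ {α} = K₁ ∧
      IntermediateField.adjoin ℚ {β} = K₂ ∧
      ∃ P Q : Polynomial ℤ, P.IsPrimitive ∧ Q.IsPrimitive ∧
        Polynomial.aeval α P = 0 ∧ Polynomial.aeval β Q = 0 ∧
        P.natDegree = (minpoly ℚ α).natDegree ∧ Q.natDegree = (minpoly ℚ β).natDegree ∧
        B ≤ max ((P.support.sup fun i => (P.coeff i).natAbs : ℕ) : ℝ)
              ((Q.support.sup fun i => (Q.coeff i).natAbs : ℕ) : ℝ) ∧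
        |α - β| ≤ C / (max ((P.support.sup fun i => (P.coeff i).natAbs : ℕ) : ℝ)
              ((Q.support.sup fun i => (Q.coeff i).natAbs : ℕ) : ℝ)) ^ 3 := by
  classical
  have : NumberField K₁ := ⟨⟩
  have : NumberField K₂ := ⟨⟩
  obtain ⟨C, hC, happ⟩ := approx K₁ K₂
  set D : ℝ := 2 ^ (finrank ℚ K₁ + finrank ℚ K₂ + 1) with hD
  refine ⟨2 * C ^ 2 * D ^ 3, fun B => ?_⟩
  set M : ℝ := max B 1 + 1 with hM
  have hM2 : 2 ≤ M := by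
    have := le_max_right B 1
    linarith
  -- a positive lower bound for differences of integers of bounded size
  obtain ⟨δ, hδ0, hδ1, hδ⟩ : ∃ δ : ℝ, 0 < δ ∧ δ ≤ 1 ∧ ∀ (x : K₁) (y : K₂), IsIntegral ℤ x →
      IsIntegral ℤ y → (∀ σ : K₁ →+* ℂ, ‖σ x‖ ≤ M + 1) → (∀ σ : K₂ →+* ℂ, ‖σ y‖ ≤ M + 1) →
      (x : ℝ) ≠ y → δ ≤ |(x : ℝ) - y| := by
    have hfin := (Embeddings.finite_of_norm_le K₁ ℂ (M + 1)).prod
      (Embeddings.finite_of_norm_le K₂ ℂ (M + 1))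
    obtain ⟨U, hU⟩ := (hfin.image fun p => 1 / |(p.1 : ℝ) - p.2|).bddAbove
    refine ⟨1 / max U 1, by positivity, ?_, fun x y hx hy hx' hy' hxy => ?_⟩
    · rw [div_le_one (by positivity)]; exact le_max_right _ _
    · have h1 : 1 / |(x : ℝ) - y| ≤ U := hU ⟨(x, y), ⟨⟨hx, hx'⟩, ⟨hy, hy'⟩⟩, rfl⟩
      have h2 : 0 < |(x : ℝ) - y| := abs_pos.2 (sub_ne_zero.2 hxy)
      rw [one_div_le (by positivity) h2]
      exact h1.trans (le_max_left _ _)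
  obtain ⟨m, hm⟩ := exists_nat_gt (C / δ)
  have hm0 : (0 : ℝ) < m := lt_trans (by positivity) hm
  have hm1 : 1 ≤ m := by exact_mod_cast hm0
  obtain ⟨γ₁, γ₂, hi₁, hi₂, hor, hs₁, hs₂, hb, hd⟩ := happ m hm1
  have hlt : |(γ₁ : ℝ) - γ₂| < δ := by
    refine hd.trans_lt ?_
    rw [div_lt_iff₀ hδ0] at hm
    rw [div_lt_iff₀ hm0]; linarith
  have h0₁ : γ₁ ≠ 0 := by
    rintro rfl
    have h2 := (pisot K₂ γ₂ hi₂ (hor.resolve_left (by simp)) hs₂).1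
    simp at hlt
    linarith
  have h0₂ : γ₂ ≠ 0 := by
    rintro rfl
    have h2 := (pisot K₁ γ₁ hi₁ h0₁ hs₁).1
    simp at hlt
    linarith
  obtain ⟨h1₁, ha₁, P, hP1, hP2, hP3, hP4, hP5⟩ := pisot K₁ γ₁ hi₁ h0₁ hs₁
  obtain ⟨h1₂, ha₂, Q, hQ1, hQ2, hQ3, hQ4, -⟩ := pisot K₂ γ₂ hi₂ h0₂ hs₂
  have hγne : (γ₁ : ℝ) ≠ γ₂ := by
    intro h
    apply hne
    rw [← ha₁, ← ha₂, h]
  have htri : |(γ₂ : ℝ)| ≤ |(γ₁ : ℝ)| + 1 ∧ |(γ₁ : ℝ)| ≤ |(γ₂ : ℝ)| + 1 := by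
    have h1 := abs_sub_abs_le_abs_sub (γ₁ : ℝ) γ₂
    have h2 := abs_sub_abs_le_abs_sub (γ₂ : ℝ) γ₁
    rw [abs_sub_comm] at h2
    constructor <;> linarith
  have hbig : M < |(γ₁ : ℝ)| := by
    by_contra hcon
    push Not at hcon
    refine absurd (hδ γ₁ γ₂ hi₁ hi₂ (fun σ => ?_) (fun σ => ?_) hγne) (not_le.2 hlt)
    · by_cases hσ : σ = emb K₁
      · rw [hσ]; simp; linarith
      · have := hs₁ σ hσ; linarith
    · by_cases hσ : σ = emb K₂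
      · rw [hσ]; simp; linarith [htri.1]
      · have := hs₂ σ hσ; linarith
  refine ⟨(γ₁ : ℝ)⁻¹, (γ₂ : ℝ)⁻¹, fun h => hγne (inv_injective h), ha₁, ha₂, P, Q, hP1, hQ1, hP2,
    hQ2, hP3, hQ3, ?_, ?_⟩
  · refine le_trans ?_ (le_max_left _ _)
    change B ≤ (ht P : ℝ)
    have := le_max_left B 1
    linarith
  · change _ ≤ _ / (max (ht P : ℝ) (ht Q : ℝ)) ^ 3
    set g := |(γ₁ : ℝ)| with hg
    set H := max (ht P : ℝ) (ht Q : ℝ) with hH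
    have hH0 : 0 < H := lt_of_lt_of_le (by linarith) (le_max_left _ _)
    have hg0 : 0 < g := by linarith
    have hHg : H ≤ D * g := by
      have e1 : (1 : ℝ) ≤ 2 ^ finrank ℚ K₁ := one_le_pow₀ (by norm_num)
      have e2 : (1 : ℝ) ≤ 2 ^ finrank ℚ K₂ := one_le_pow₀ (by norm_num)
      have e3 : D = 2 ^ finrank ℚ K₁ * 2 ^ finrank ℚ K₂ * 2 := by rw [hD]; ring
      refine max_le (hP4.trans ?_) (hQ4.trans ?_)
      · rw [e3]; gcongr; nlinarith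
      · calc (2 : ℝ) ^ finrank ℚ K₂ * |(γ₂ : ℝ)| ≤ 2 ^ finrank ℚ K₂ * (2 * g) := by
              gcongr; linarith [htri.1]
          _ = 1 * 2 ^ finrank ℚ K₂ * 2 * g := by ring
          _ ≤ D * g := by rw [e3]; gcongr
    have hγ1 : (γ₁ : ℝ) ≠ 0 := abs_pos.1 hg0
    have hγ2 : (γ₂ : ℝ) ≠ 0 := abs_pos.1 (by linarith)
    have e4 : |(γ₁ : ℝ)⁻¹ - (γ₂ : ℝ)⁻¹| = |(γ₁ : ℝ) - γ₂| / (g * |(γ₂ : ℝ)|) := by
      rw [inv_sub_inv hγ1 hγ2, abs_div, abs_mul, abs_sub_comm]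
    have e5 : |(γ₁ : ℝ) - γ₂| * g ≤ C ^ 2 := by
      calc |(γ₁ : ℝ) - γ₂| * g ≤ C / m * (C * m) := by gcongr
        _ = C ^ 2 := by field_simp
    have e6 : g ≤ 2 * |(γ₂ : ℝ)| := by linarith [htri.2]
    rw [e4, div_le_div_iff₀ (by positivity) (by positivity)]
    calc |(γ₁ : ℝ) - γ₂| * H ^ 3 ≤ |(γ₁ : ℝ) - γ₂| * (D * g) ^ 3 := by gcongr
      _ = (|(γ₁ : ℝ) - γ₂| * g) * D ^ 3 * (g * g) := by ring
      _ ≤ C ^ 2 * D ^ 3 * (g * (2 * |(γ₂ : ℝ)|)) := by gcongr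
      _ = 2 * C ^ 2 * D ^ 3 * (g * |(γ₂ : ℝ)|) := by ring

end Pool.Agent.Results.MP_3c6bfc_nt.ExponentThree
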